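import Mathlib
import Pool.Agent.Helper17.SO.Stmts

set_option autoImplicit false

open Finset

namespace Pool.Agent.Helper17.SO

lemma pert_mem_PP {u w l : ℕ} : l ∈ PP u w ↔ (u < l ∧ l ≤ w) ∧ l.Prime := by
  unfold PP
  rw [Finset.mem_filter, Finset.mem_Ioc]

lemma pert_prod_pos {w z : ℕ} {T : Finset ℕ} (hT : T ⊆ PP w z) : 0 < ∏ q ∈ T, q :=
  Finset.prod_pos (fun q hq => (pert_mem_PP.1 (hT hq)).2.pos)

lemma pert_prod_le {w z I : ℕ} {T : Finset ℕ} (hT : T ⊆ PP w z) (hI : T.card ≤ I) (hz : 1 ≤ z) :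
    ∏ q ∈ T, q ≤ z ^ I := by
  calc ∏ q ∈ T, q ≤ ∏ _q ∈ T, z := Finset.prod_le_prod' (fun q hq => (pert_mem_PP.1 (hT hq)).1.2)
    _ = z ^ T.card := by rw [Finset.prod_const]
    _ ≤ z ^ I := Nat.pow_le_pow_right hz hI

/-- the modulus is small -/
lemma pert_mod_le {b I w z m : ℕ} {T : Finset ℕ} (hT : T ⊆ PP w z) (hI : T.card ≤ I)
    (hz : 1 ≤ z) (hm : m ≤ z) : z ^ b * (m ^ 2 * ∏ q ∈ T, q) ≤ z ^ (b + I + 2) := by
  have h1 := pert_prod_le hT hI hz
  have h2 : m ^ 2 ≤ z ^ 2 := Nat.pow_le_pow_left hm 2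
  calc z ^ b * (m ^ 2 * ∏ q ∈ T, q) ≤ z ^ b * (z ^ 2 * z ^ I) :=
        Nat.mul_le_mul_left _ (Nat.mul_le_mul h2 h1)
    _ = z ^ (b + I + 2) := by rw [← pow_add, ← pow_add]; ring_nf

lemma pert_coprime {w z m : ℕ} {T : Finset ℕ} (hT : T ⊆ PP w z) (hm1 : 1 ≤ m) (hm : m ≤ w) :
    Nat.Coprime (m ^ 2) (∏ q ∈ T, q) := by
  apply Nat.Coprime.pow_left
  apply Nat.Coprime.prod_right
  intro q hq
  have h1 := pert_mem_PP.1 (hT hq)
  rw [Nat.coprime_comm]
  rw [h1.2.coprime_iff_not_dvd]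
  intro h2
  have := Nat.le_of_dvd (by omega) h2
  omega

lemma pert_not_dvd {w z m l : ℕ} {T : Finset ℕ} (hT : T ⊆ PP w z) (hm1 : 1 ≤ m) (hm : m ≤ w)
    (hl : l ∈ PP w z \ T) : ¬ l ∣ m ^ 2 * ∏ q ∈ T, q := by
  obtain ⟨hl1, hl2⟩ := Finset.mem_sdiff.1 hl
  have hlp := pert_mem_PP.1 hl1
  intro hd
  rcases (hlp.2.dvd_mul).1 hd with h | h
  · have h3 := hlp.2.dvd_of_dvd_pow h
    have := Nat.le_of_dvd (by omega) h3
    omega
  · obtain ⟨q, hq, hlq⟩ := (Prime.dvd_finset_prod_iff hlp.2.prime _).1 h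
    have hqp := pert_mem_PP.1 (hT hq)
    have : l = q := (Nat.prime_dvd_prime_iff_eq hlp.2 hqp.2).1 hlq
    exact hl2 (this ▸ hq)

lemma pert_exp {w z : ℕ} (hw : 2 ≤ w) (hwz : w ≤ z) (e C s : ℝ) (h : e * LL w z - C ≤ s) :
    Real.exp (-s) ≤ Real.exp C * (Real.log w / Real.log z) ^ e := by
  have hlw : 0 < Real.log w := Real.log_pos (by exact_mod_cast (by omega : 1 < w))
  have hlz : 0 < Real.log z := Real.log_pos (by exact_mod_cast (by omega : 1 < z))
  have h1 : LL w z = - Real.log (Real.log w / Real.log z) := by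
    unfold LL
    rw [← Real.log_inv, inv_div]
  have h2 : (Real.log w / Real.log z) ^ e = Real.exp (Real.log (Real.log w / Real.log z) * e) :=
    Real.rpow_def_of_pos (div_pos hlw hlz) e
  rw [h2, ← Real.exp_add]
  apply Real.exp_le_exp.2
  rw [h1] at h
  nlinarith

theorem st_PERT (hSAP : ST_SAP) (hOME : ST_OME) (hLOW : ST_LOW) (hRES : ST_RES) : ST_PERT := by
  classical
  intro lam η hlam hη
  obtain ⟨b, C0, hb, hC0, hS⟩ := hSAP
  obtain ⟨I, C', hI, hC', hL⟩ := hLOW lam η hlam hη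
  refine ⟨I, b + I + 2, 2 * C0 * Real.exp C', hI, by omega, by positivity, ?_⟩
  intro x W w z m T hWw hw hwz hzx hm1 hmw hT hTI S hSk
  set QT : ℕ := ∏ q ∈ T, q with hQT
  set Q : ℕ := m ^ 2 * QT with hQ
  set e : ℝ := 1 + kap lam - η with he
  have hQTpos : 0 < QT := pert_prod_pos hT
  have hQpos : 0 < Q := Nat.mul_pos (by positivity) hQTpos
  have hzb : z ^ b * Q ≤ x := le_trans (pert_mod_le hT hTI (by omega) (by omega)) hzx
  set K : ℝ := C0 * ((x : ℝ) / Q) * (Real.exp C' * (Real.log w / Real.log z) ^ e) with hK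
  have hlw : 0 < Real.log w := Real.log_pos (by exact_mod_cast (by omega : 1 < w))
  have hlz : 0 < Real.log z := Real.log_pos (by exact_mod_cast (by omega : 1 < z))
  have hK0 : 0 ≤ K := by
    have : 0 ≤ (Real.log w / Real.log z) ^ e := Real.rpow_nonneg (div_pos hlw hlz).le e
    positivity
  set R : Finset ℕ := (Finset.range QT).filter (fun a => ∀ q ∈ T, FD lam q a) with hR
  have hRcard : R.card ≤ 2 ^ T.card := by
    refine hRES lam T (fun q hq => (pert_mem_PP.1 (hT hq)).2) R ?_ ?_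
    · intro a ha
      exact Finset.mem_range.1 (Finset.mem_filter.1 ha).1
    · intro a ha
      exact (Finset.mem_filter.1 ha).2
  -- one value of τ
  have hone : ∀ τ : ℤ, (τ = 1 ∨ τ = -1) →
      ((S.filter (fun k => Arith lam W τ k)).card : ℝ) ≤ 2 ^ T.card * K := by
    intro τ hτ
    obtain ⟨Ω, hΩ1, hΩ2⟩ := hOME lam W w z m I T τ hlam hWw hw hm1 hmw hT hTI hτ
    set Sτ := S.filter (fun k => Arith lam W τ k) with hSτ
    have hclass : ∀ a ∈ R, ((Sτ.filter (fun k => k % QT = a)).card : ℝ) ≤ K := by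
      intro a _
      rcases Finset.eq_empty_or_nonempty (Sτ.filter (fun k => k % QT = a)) with h0 | ⟨k0, hk0⟩
      · rw [h0]
        simpa using hK0
      · have hk0' := Finset.mem_filter.1 hk0
        have hk0'' := Finset.mem_filter.1 hk0'.1
        obtain ⟨s0, _, hs0⟩ := (hSk k0 hk0''.1).2.2.1
        have h1 := hS z x Q k0 (PP w z \ T) Ω (by omega) hQpos hzb (by
          intro l hl
          have hlp := pert_mem_PP.1 (Finset.mem_sdiff.1 hl).1
          refine ⟨hlp.2, by omega, hlp.1.2, (hΩ1 l hl).1, ?_⟩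
          exact pert_not_dvd hT hm1 hmw hl) (Sτ.filter (fun k => k % QT = a)) (by
          intro k hk
          have hk' := Finset.mem_filter.1 hk
          have hk'' := Finset.mem_filter.1 hk'.1
          obtain ⟨hkx, _, ⟨s, hs, hks⟩, hkT, hkY⟩ := hSk k hk''.1
          refine ⟨hkx, ?_, ?_⟩
          · have e1 : k ≡ k0 [MOD m ^ 2] := by
              rw [hks, hs0]
              have e2 : m ^ 2 * s + lam ≡ lam [MOD m ^ 2] := by
                have := (Nat.modEq_zero_iff_dvd.2 (Dvd.intro s rfl : m ^ 2 ∣ m ^ 2 * s)).add_right lam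
                simpa using this
              have e3 : m ^ 2 * s0 + lam ≡ lam [MOD m ^ 2] := by
                have := (Nat.modEq_zero_iff_dvd.2
                  (Dvd.intro s0 rfl : m ^ 2 ∣ m ^ 2 * s0)).add_right lam
                simpa using this
              exact e2.trans e3.symm
            have e2 : k ≡ k0 [MOD QT] := by
              unfold Nat.ModEq
              rw [hk'.2, hk0'.2]
            exact (Nat.modEq_and_modEq_iff_modEq_mul (pert_coprime hT hm1 hmw)).1 ⟨e1, e2⟩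
          · exact hΩ2 k hk''.2 ⟨s, hs, hks⟩ hkT hkY)
        refine le_trans h1 ?_
        rw [hK]
        apply mul_le_mul_of_nonneg_left _ (by positivity)
        apply pert_exp (by omega) hwz
        refine le_trans (hL w z T τ hw hwz hT hTI hτ) ?_
        apply Finset.sum_le_sum
        intro l hl
        apply div_le_div_of_nonneg_right (hΩ1 l hl).2 (Nat.cast_nonneg _)
    have hcover : Sτ ⊆ R.biUnion (fun a => Sτ.filter (fun k => k % QT = a)) := by
      intro k hk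
      have hk' := Finset.mem_filter.1 hk
      obtain ⟨_, _, _, hkT, _⟩ := hSk k hk'.1
      rw [Finset.mem_biUnion]
      refine ⟨k % QT, ?_, Finset.mem_filter.2 ⟨hk, rfl⟩⟩
      rw [hR, Finset.mem_filter, Finset.mem_range]
      refine ⟨Nat.mod_lt _ hQTpos, ?_⟩
      intro q hq
      have h1 := hkT q hq
      unfold FD at h1 ⊢
      have hqQ : (q : ℤ) ∣ (QT : ℤ) := by
        exact_mod_cast (Finset.dvd_prod_of_mem (fun q => q) hq)
      have h2 : ((k % QT : ℕ) : ℤ) = (k : ℤ) - QT * (k / QT : ℕ) := by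
        have := Nat.mod_add_div k QT
        have h3 : ((k % QT : ℕ) : ℤ) + QT * ((k / QT : ℕ) : ℤ) = k := by exact_mod_cast this
        linarith
      rw [h2]
      obtain ⟨c, hc⟩ := hqQ
      obtain ⟨d, hd⟩ := h1
      refine ⟨d - c * ((k / QT : ℕ) : ℤ) * (2 * k - QT * ((k / QT : ℕ) : ℤ)) +
        c * ((k / QT : ℕ) : ℤ), ?_⟩
      have h5 : ((k : ℤ) - QT * ((k / QT : ℕ) : ℤ)) ^ 2 - ((k : ℤ) - QT * ((k / QT : ℕ) : ℤ)) + lam
          = ((k : ℤ) ^ 2 - k + lam) - QT * ((k / QT : ℕ) : ℤ) *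
            (2 * k - QT * ((k / QT : ℕ) : ℤ)) + QT * ((k / QT : ℕ) : ℤ) := by ring
      rw [h5, hd]
      rw [show (QT : ℤ) * ((k / QT : ℕ) : ℤ) * (2 * k - QT * ((k / QT : ℕ) : ℤ)) =
        (q * c) * ((k / QT : ℕ) : ℤ) * (2 * k - QT * ((k / QT : ℕ) : ℤ)) by rw [← hc]]
      rw [show (QT : ℤ) * ((k / QT : ℕ) : ℤ) = (q * c) * ((k / QT : ℕ) : ℤ) by rw [← hc]]
      ring
    have h1 : Sτ.card ≤ ∑ a ∈ R, (Sτ.filter (fun k => k % QT = a)).card :=
      le_trans (Finset.card_le_card hcover) Finset.card_biUnion_le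
    calc (Sτ.card : ℝ) ≤ ((∑ a ∈ R, (Sτ.filter (fun k => k % QT = a)).card : ℕ) : ℝ) := by
          exact_mod_cast h1
      _ = ∑ a ∈ R, ((Sτ.filter (fun k => k % QT = a)).card : ℝ) := by push_cast; rfl
      _ ≤ ∑ _a ∈ R, K := Finset.sum_le_sum hclass
      _ = R.card * K := by rw [Finset.sum_const, nsmul_eq_mul]
      _ ≤ 2 ^ T.card * K := by
          apply mul_le_mul_of_nonneg_right _ hK0
          exact_mod_cast hRcard
  have hcov : S ⊆ S.filter (fun k => Arith lam W 1 k) ∪ S.filter (fun k => Arith lam W (-1) k) := by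
    intro k hk
    obtain ⟨_, ⟨τ, hτ, hA⟩, _⟩ := hSk k hk
    rw [Finset.mem_union]
    rcases hτ with h | h
    · left
      exact Finset.mem_filter.2 ⟨hk, h ▸ hA⟩
    · right
      exact Finset.mem_filter.2 ⟨hk, h ▸ hA⟩
  have h1 : (S.card : ℝ) ≤ ((S.filter (fun k => Arith lam W 1 k)).card : ℝ) +
      ((S.filter (fun k => Arith lam W (-1) k)).card : ℝ) := by
    have := le_trans (Finset.card_le_card hcov) (Finset.card_union_le _ _)
    exact_mod_cast this
  have h2 := hone 1 (Or.inl rfl)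
  have h3 := hone (-1) (Or.inr rfl)
  have h4 : 2 * (2 ^ T.card * K) = 2 * C0 * Real.exp C' * (∏ q ∈ T, (2 / (q : ℝ))) *
      ((x : ℝ) / (m : ℝ) ^ 2) * (Real.log w / Real.log z) ^ e := by
    rw [hK, Finset.prod_div_distrib, Finset.prod_const]
    have hq : ((Q : ℕ) : ℝ) = (m : ℝ) ^ 2 * ∏ q ∈ T, (q : ℝ) := by
      rw [hQ, hQT]
      push_cast
      rfl
    rw [hq]
    have hm0 : (m : ℝ) ≠ 0 := by
      have : 0 < m := by omega
      exact_mod_cast this.ne'
    have hp0 : (∏ q ∈ T, (q : ℝ)) ≠ 0 := by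
      have : ((QT : ℕ) : ℝ) ≠ 0 := by exact_mod_cast hQTpos.ne'
      rw [hQT] at this
      push_cast at this
      exact this
    field_simp
  rw [← h4]
  linarith

end Pool.Agent.Helper17.SO
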